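import Pool.Agent.Helper52.AT.Defs

/-!
# Block AT-SEQc: solving `s (n+1) - μ₀ s n = s' n` with `|μ| < |μ₀|` (for `MP_295d38_ag`)
-/

set_option autoImplicit false

namespace Pool.Agent.Helper52.AT

open Filter Topology IsLocalRing

/-- `w n = (n choose j) μ ^ n`. -/
private noncomputable def ww (μ : ℂ) (j n : ℕ) : ℂ := (n.choose j : ℂ) * μ ^ n

private theorem ww_ne {μ : ℂ} (hμ : μ ≠ 0) {j n : ℕ} (hn : j ≤ n) : ww μ j n ≠ 0 := by
  unfold ww
  refine mul_ne_zero ?_ (pow_ne_zero _ hμ)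
  exact_mod_cast (Nat.choose_pos hn).ne'

private theorem ww_ratio {μ : ℂ} (hμ : μ ≠ 0) (j : ℕ) :
    Tendsto (fun n => ww μ j (n + 1) / ww μ j n) atTop (𝓝 μ) := by
  have h1 : Tendsto (fun n : ℕ => ((n + 1 : ℕ) : ℂ) / (((n + 1 : ℕ) : ℂ) + (-(j : ℂ)))) atTop
      (𝓝 1) :=
    (tendsto_natCast_div_add_atTop (𝕜 := ℂ) (-(j : ℂ))).comp (tendsto_add_atTop_nat 1)
  have h2 : Tendsto (fun n : ℕ => ((n + 1 : ℕ) : ℂ) / (((n + 1 : ℕ) : ℂ) + (-(j : ℂ))) * μ) atTop
      (𝓝 μ) := by simpa using h1.mul_const μ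
  refine h2.congr' ?_
  filter_upwards [eventually_ge_atTop j] with n hn
  have hw : ((n.choose j : ℕ) : ℂ) ≠ 0 := by exact_mod_cast (Nat.choose_pos hn).ne'
  have hd : (((n + 1 : ℕ) : ℂ) + (-(j : ℂ))) ≠ 0 := by
    have : ((n + 1 - j : ℕ) : ℂ) ≠ 0 := by
      have : n + 1 - j ≠ 0 := by omega
      exact_mod_cast this
    rw [Nat.cast_sub (by omega)] at this
    simpa [sub_eq_add_neg] using this
  have key := Nat.choose_mul_succ_eq n j
  have key' : ((n.choose j : ℕ) : ℂ) * ((n + 1 : ℕ) : ℂ) =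
      (((n + 1).choose j : ℕ) : ℂ) * (((n + 1 : ℕ) : ℂ) + (-(j : ℂ))) := by
    have h := congrArg (Nat.cast (R := ℂ)) key
    rw [Nat.cast_mul, Nat.cast_mul, Nat.cast_sub (by omega)] at h
    simpa [sub_eq_add_neg] using h
  unfold ww
  rw [pow_succ]
  rw [div_mul_eq_mul_div, div_eq_div_iff hd (mul_ne_zero hw (pow_ne_zero _ hμ))]
  linear_combination (μ * μ ^ n) * key'

private theorem ww_shift {μ : ℂ} (hμ : μ ≠ 0) (j k : ℕ) :
    Tendsto (fun n => ww μ j (n + k) / ww μ j n) atTop (𝓝 (μ ^ k)) := by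
  induction k with
  | zero =>
    rw [pow_zero]
    refine tendsto_const_nhds.congr' ?_
    filter_upwards [eventually_ge_atTop j] with n hn
    rw [add_zero, div_self (ww_ne hμ hn)]
  | succ k ih =>
    have h1 := ((ww_ratio hμ j).comp (tendsto_add_atTop_nat k)).mul ih
    rw [pow_succ, mul_comm (μ ^ k)]
    refine h1.congr' ?_
    filter_upwards [eventually_ge_atTop j] with n hn
    simp only [Function.comp_apply]
    rw [div_mul_div_cancel₀ (ww_ne hμ (le_trans hn (Nat.le_add_right _ _)))]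
    rfl

theorem reg_gt {μ μ₀ c : ℂ} {j : ℕ} {s s' : ℕ → ℂ} (hs : ∀ n, s (n + 1) - μ₀ * s n = s' n)
    (h : Reg μ j c s') (hμ : ‖μ‖ < ‖μ₀‖) :
    (∃ c', Reg μ₀ 0 c' s) ∨ Reg μ j (c / (μ - μ₀)) s := by
  obtain ⟨hμ0, hc, ht⟩ := h
  have hμ₀ : μ₀ ≠ 0 := by
    intro h0
    rw [h0, norm_zero] at hμ
    exact absurd (norm_nonneg μ) (not_le.2 hμ)
  have hμ₀' : 0 < ‖μ₀‖ := norm_pos_iff.2 hμ₀
  change Tendsto (fun n => s' n / ww μ j n) atTop (𝓝 c) at ht
  obtain ⟨κ, hκ1, hκ2⟩ := exists_between hμ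
  have hκ0 : 0 < κ := lt_of_le_of_lt (norm_nonneg _) hκ1
  -- eventually the norms of `w` decrease geometrically
  have e1 : ∀ᶠ n in atTop, ‖ww μ j (n + 1)‖ ≤ κ * ‖ww μ j n‖ := by
    have h1 := (ww_ratio hμ0 j).norm.eventually_lt_const hκ1
    filter_upwards [h1, eventually_ge_atTop j] with n hn hj
    rw [norm_div, div_lt_iff₀ (norm_pos_iff.2 (ww_ne hμ0 hj))] at hn
    exact hn.le
  have e2 : ∀ᶠ n in atTop, ‖s' n‖ ≤ (‖c‖ + 1) * ‖ww μ j n‖ := by
    have h1 := ht.norm.eventually_lt_const (lt_add_one ‖c‖)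
    filter_upwards [h1, eventually_ge_atTop j] with n hn hj
    rw [norm_div, div_lt_iff₀ (norm_pos_iff.2 (ww_ne hμ0 hj))] at hn
    exact hn.le
  obtain ⟨n₀, hn₀⟩ := eventually_atTop.1 (e1.and (e2.and (eventually_ge_atTop j)))
  have dom : ∀ n ≥ n₀, ∀ k, ‖ww μ j (n + k)‖ ≤ κ ^ k * ‖ww μ j n‖ := by
    intro n hn k
    induction k with
    | zero => simp
    | succ k ih =>
      calc ‖ww μ j (n + (k + 1))‖ ≤ κ * ‖ww μ j (n + k)‖ :=
            (hn₀ (n + k) (le_trans hn (Nat.le_add_right _ _))).1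
        _ ≤ κ * (κ ^ k * ‖ww μ j n‖) := mul_le_mul_of_nonneg_left ih hκ0.le
        _ = κ ^ (k + 1) * ‖ww μ j n‖ := by ring
  have dom' : ∀ n ≥ n₀, ∀ k, ‖s' (n + k) / μ₀ ^ (k + 1)‖ ≤
      (‖c‖ + 1) / ‖μ₀‖ * ‖ww μ j n‖ * (κ / ‖μ₀‖) ^ k := by
    intro n hn k
    rw [norm_div, norm_pow, div_le_iff₀ (pow_pos hμ₀' _)]
    calc ‖s' (n + k)‖ ≤ (‖c‖ + 1) * ‖ww μ j (n + k)‖ :=
          (hn₀ (n + k) (le_trans hn (Nat.le_add_right _ _))).2.1
      _ ≤ (‖c‖ + 1) * (κ ^ k * ‖ww μ j n‖) :=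
          mul_le_mul_of_nonneg_left (dom n hn k) (by positivity)
      _ = (‖c‖ + 1) / ‖μ₀‖ * ‖ww μ j n‖ * (κ / ‖μ₀‖) ^ k * ‖μ₀‖ ^ (k + 1) := by
          rw [div_pow, pow_succ]
          field_simp
  have hr1 : κ / ‖μ₀‖ < 1 := (div_lt_one hμ₀').2 hκ2
  have hr0 : 0 ≤ κ / ‖μ₀‖ := by positivity
  have hgeo : Summable (fun k : ℕ => (κ / ‖μ₀‖) ^ k) := summable_geometric_of_lt_one hr0 hr1
  -- the increments of `r n = s n / μ₀ ^ n`
  set r : ℕ → ℂ := fun n => s n / μ₀ ^ n with hr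
  set d : ℕ → ℂ := fun n => s' n / μ₀ ^ (n + 1) with hd
  have hinc : ∀ n, r (n + 1) - r n = d n := by
    intro n
    simp only [hr, hd]
    rw [← hs n, pow_succ]
    field_simp
  have hdsum : Summable d := by
    refine (summable_nat_add_iff n₀).1 ?_
    refine Summable.of_norm_bounded
      (g := fun k => ((‖c‖ + 1) / ‖μ₀‖ * ‖ww μ j n₀‖ / ‖μ₀‖ ^ n₀) * (κ / ‖μ₀‖) ^ k)
      (hgeo.mul_left _) ?_
    intro k
    have h1 := dom' n₀ le_rfl k
    simp only [hd]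
    have e : s' (k + n₀) / μ₀ ^ (k + n₀ + 1) = s' (n₀ + k) / μ₀ ^ (k + 1) / μ₀ ^ n₀ := by
      rw [div_div, ← pow_add, add_comm k n₀]
      congr 2
      omega
    rw [e, norm_div, norm_pow, div_le_iff₀ (pow_pos hμ₀' _)]
    refine h1.trans (le_of_eq ?_)
    field_simp
  have htel : ∀ n, r n = r 0 + ∑ i ∈ Finset.range n, d i := by
    intro n
    induction n with
    | zero => simp
    | succ n ih =>
      rw [Finset.sum_range_succ, ← add_assoc, ← ih, ← hinc n]; ring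
  have hlim : Tendsto r atTop (𝓝 (r 0 + ∑' i, d i)) := by
    have h1 := (hdsum.hasSum.tendsto_sum_nat).const_add (r 0)
    exact h1.congr (fun n => (htel n).symm)
  by_cases hc' : r 0 + ∑' i, d i = 0
  · right
    have hne : μ - μ₀ ≠ 0 := by
      intro h0
      rw [sub_eq_zero] at h0
      rw [h0] at hμ
      exact lt_irrefl _ hμ
    refine ⟨hμ0, div_ne_zero hc hne, ?_⟩
    change Tendsto (fun n => s n / ww μ j n) atTop (𝓝 (c / (μ - μ₀)))
    -- `s n = - ∑' k, s' (n + k) / μ₀ ^ (k + 1)`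
    have hsn : ∀ n, s n = -∑' k, s' (n + k) / μ₀ ^ (k + 1) := by
      intro n
      have h1 : r n = -∑' k, d (k + n) := by
        have h2 := hdsum.sum_add_tsum_nat_add n
        rw [htel n]
        linear_combination hc' + h2
      have h3 : s n = μ₀ ^ n * r n := by
        simp only [hr]
        field_simp
      rw [h3, h1, mul_neg, ← tsum_mul_left]
      congr 1
      refine tsum_congr fun k => ?_
      simp only [hd]
      rw [add_comm k n, show n + k + 1 = n + (k + 1) by ring, pow_add]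
      field_simp
    have hq : ∀ n, s n / ww μ j n = -∑' k, s' (n + k) / μ₀ ^ (k + 1) / ww μ j n := by
      intro n
      rw [hsn n, neg_div, tsum_div_const]
    have hterm : ∀ k, Tendsto (fun n => s' (n + k) / μ₀ ^ (k + 1) / ww μ j n) atTop
        (𝓝 (c * μ ^ k / μ₀ ^ (k + 1))) := by
      intro k
      have h1 := ((ht.comp (tendsto_add_atTop_nat k)).mul (ww_shift hμ0 j k)).div_const
        (μ₀ ^ (k + 1))
      refine h1.congr' ?_
      filter_upwards [eventually_ge_atTop j] with n hn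
      simp only [Function.comp_apply]
      rw [div_mul_div_cancel₀ (ww_ne hμ0 (le_trans hn (Nat.le_add_right _ _))), div_right_comm]
    have hT : Tendsto (fun n => ∑' k, s' (n + k) / μ₀ ^ (k + 1) / ww μ j n) atTop
        (𝓝 (∑' k, c * μ ^ k / μ₀ ^ (k + 1))) := by
      refine tendsto_tsum_of_dominated_convergence
        (bound := fun k => (‖c‖ + 1) / ‖μ₀‖ * (κ / ‖μ₀‖) ^ k) (hgeo.mul_left _) hterm ?_
      filter_upwards [eventually_ge_atTop n₀] with n hn k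
      have hw := norm_pos_iff.2 (ww_ne hμ0 (hn₀ n hn).2.2)
      rw [norm_div, div_le_iff₀ hw]
      refine (dom' n hn k).trans (le_of_eq ?_)
      ring
    have hval : -∑' k, c * μ ^ k / μ₀ ^ (k + 1) = c / (μ - μ₀) := by
      have h1 : ∀ k : ℕ, c * μ ^ k / μ₀ ^ (k + 1) = c / μ₀ * (μ / μ₀) ^ k := by
        intro k
        rw [div_pow, pow_succ]
        field_simp
      have hlt : ‖μ / μ₀‖ < 1 := by
        rw [norm_div]
        exact (div_lt_one hμ₀').2 hμ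
      rw [tsum_congr h1, tsum_mul_left, tsum_geometric_of_norm_lt_one hlt]
      have hne' : μ₀ - μ ≠ 0 := by
        intro h0
        exact hne (by linear_combination -h0)
      have e : (1 - μ / μ₀)⁻¹ = μ₀ / (μ₀ - μ) := by
        rw [one_sub_div hμ₀, inv_div]
      rw [e]
      field_simp
      ring
    rw [← hval]
    exact hT.neg.congr (fun n => (hq n).symm)
  · left
    refine ⟨r 0 + ∑' i, d i, hμ₀, hc', ?_⟩
    simpa [hr] using hlim

end Pool.Agent.Helper52.AT
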